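import Pool.Agent.helper24.ISL.Spec

set_option autoImplicit false

namespace Pool.Agent.ISL

open Matrix Filter Topology

private lemma TW_w {n : ℕ} {F : Type} [Field F] (i j : Fin n) (hij : i ≠ j) (a b : F) (hab : a * b = 1) :
    (1 + Matrix.single i j a) * (1 + Matrix.single j i (-b)) * (1 + Matrix.single i j a)
      = 1 - Matrix.single i i 1 - Matrix.single j j 1 + Matrix.single i j a + Matrix.single j i (-b) := by
  have hba : b * a = 1 := by rw [mul_comm]; exact hab
  have h1 : Matrix.single i j a * Matrix.single j i (-b) = - Matrix.single i i (1 : F) := by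
    rw [Matrix.single_mul_single_same, mul_neg, hab]
    ext k l
    simp only [Matrix.single_apply, Matrix.neg_apply]
    split_ifs <;> simp
  have h2 : Matrix.single j i (-b) * Matrix.single i j a = - Matrix.single j j (1 : F) := by
    rw [Matrix.single_mul_single_same, neg_mul, hba]
    ext k l
    simp only [Matrix.single_apply, Matrix.neg_apply]
    split_ifs <;> simp
  have h3 : Matrix.single i j a * Matrix.single i j a = 0 := by
    rw [Matrix.single_mul_single_of_ne _ _ _ _ (Ne.symm hij)]
  have h4 : Matrix.single i i (1 : F) * Matrix.single i j a = Matrix.single i j a := by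
    rw [Matrix.single_mul_single_same, one_mul]
  have e1 : (1 + Matrix.single i j a) * (1 + Matrix.single j i (-b))
      = 1 + Matrix.single i j a + Matrix.single j i (-b) - Matrix.single i i (1 : F) := by
    rw [mul_add, mul_one, add_mul, one_mul, h1]
    abel
  rw [e1, mul_add, mul_one, sub_mul, add_mul, add_mul, one_mul, h2, h3, h4]
  abel

private lemma TW_dec {n : ℕ} {F : Type} [Field F] (i j : Fin n) (hij : i ≠ j) (a : F) (ha : a ≠ 0) :
    SpecialLinearGroup.diag2n hij a ha =
      (SpecialLinearGroup.transvection hij a * SpecialLinearGroup.transvection hij.symm (-a⁻¹) *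
        SpecialLinearGroup.transvection hij a) *
      (SpecialLinearGroup.transvection hij (-1) * SpecialLinearGroup.transvection hij.symm 1 *
        SpecialLinearGroup.transvection hij (-1)) := by
  apply Subtype.ext
  rw [SpecialLinearGroup.diag2n_coe]
  have w1 := TW_w i j hij a a⁻¹ (mul_inv_cancel₀ ha)
  have w2 := TW_w i j hij (-1 : F) (-1) (by ring)
  rw [neg_neg] at w2
  change _ = (1 + Matrix.single i j a) * (1 + Matrix.single j i (-a⁻¹)) * (1 + Matrix.single i j a) *
    ((1 + Matrix.single i j (-1)) * (1 + Matrix.single j i 1) * (1 + Matrix.single i j (-1)))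
  rw [w1, w2]
  have hji : j ≠ i := hij.symm
  have key : (1 - Matrix.single i i 1 - Matrix.single j j 1 + Matrix.single i j a + Matrix.single j i (-a⁻¹)) *
      (1 - Matrix.single i i 1 - Matrix.single j j 1 + Matrix.single i j (-1 : F) + Matrix.single j i 1)
      = 1 - Matrix.single i i 1 - Matrix.single j j 1 + Matrix.single i i a + Matrix.single j j a⁻¹ := by
    simp only [mul_add, mul_sub, add_mul, sub_mul, one_mul, mul_one, Matrix.single_mul_single_same,
      Matrix.single_mul_single_of_ne _ _ _ _ hij, Matrix.single_mul_single_of_ne _ _ _ _ hji]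
    ext k l
    simp only [Matrix.add_apply, Matrix.sub_apply, Matrix.single_apply, Matrix.zero_apply]
    split_ifs <;> ring
  rw [key]
  ext k l
  simp only [Matrix.add_apply, Matrix.sub_apply, Matrix.single_apply, Matrix.diagonal_apply, Matrix.one_apply]
  by_cases hkl : k = l
  · subst hkl
    by_cases h1 : k = i
    · subst h1
      simp [hji]
    · by_cases h2 : k = j
      · subst h2
        simp [Ne.symm h1, h1]
      · simp [Ne.symm h1, Ne.symm h2, h1, h2]
  · have h1 : ¬ (i = k ∧ i = l) := fun h => hkl (h.1.symm.trans h.2)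
    have h2 : ¬ (j = k ∧ j = l) := fun h => hkl (h.1.symm.trans h.2)
    simp [hkl, h1, h2]

theorem TW : TW_stmt := by
  intro n F _ K hn hK
  have : Nontrivial (Fin n) := Fin.nontrivial_iff_two_le.mpr hn
  rw [Subgroup.eq_top_iff']
  intro g
  refine SpecialLinearGroup.diagonal_transvection_induction' (fun g => g ∈ K) g ?_ ?_ ?_
  · intro i j hij c hc
    show SpecialLinearGroup.diag2n hij c hc ∈ K
    rw [TW_dec i j hij c hc]
    exact K.mul_mem (K.mul_mem (K.mul_mem (hK i j hij _) (hK j i hij.symm _)) (hK i j hij _))
      (K.mul_mem (K.mul_mem (hK i j hij _) (hK j i hij.symm _)) (hK i j hij _))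
  · intro i j hij a
    exact hK i j hij a
  · intro A B hA hB
    exact K.mul_mem hA hB

end Pool.Agent.ISL
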